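import Mathlib

/-!
Hajnal–Szemerédi with prescribed colour class sizes: basic notions and the shifting lemma.
-/

namespace Pool.Agent.Q44.HS

open Relation Finset
open scoped Classical

/-! ### Paths -/

theorem path_avoid {α : Type*} {r : α → α → Prop} {x y : α} (h : ReflTransGen r x y) :
    ReflTransGen (fun i j => r i j ∧ j ≠ x) x y := by
  have key : ∀ u, ReflTransGen r u y →
      ReflTransGen (fun i j => r i j ∧ j ≠ x) u y ∨
      ReflTransGen (fun i j => r i j ∧ j ≠ x) x y := by
    intro u hu
    induction hu using ReflTransGen.head_induction_on with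
    | refl => exact Or.inl ReflTransGen.refl
    | @head a c h1 _ ih =>
      rcases ih with ih | ih
      · by_cases hc : c = x
        · right; rw [← hc]; rw [← hc] at ih; exact ih
        · left; exact ReflTransGen.head ⟨h1, hc⟩ ih
      · exact Or.inr ih
  rcases key x h with h | h <;> exact h

theorem path_src {α : Type*} {r : α → α → Prop} {x c y : α}
    (h : ReflTransGen (fun i j => r i j ∧ j ≠ x) c y) (hc : c ≠ x) :
    ReflTransGen (fun i j => r i j ∧ i ≠ x ∧ j ≠ x) c y := by
  induction h using ReflTransGen.head_induction_on with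
  | refl => exact ReflTransGen.refl
  | @head a d h1 _ ih => exact ReflTransGen.head ⟨h1.1, hc, h1.2⟩ (ih h1.2)

theorem path_in {α : Type*} {r : α → α → Prop} {x y : α} (h : ReflTransGen r x y) :
    ReflTransGen (fun i j => r i j ∧ ReflTransGen r i y ∧ ReflTransGen r j y) x y := by
  induction h using ReflTransGen.head_induction_on with
  | refl => exact ReflTransGen.refl
  | @head a d h1 h2 ih => exact ReflTransGen.head ⟨h1, ReflTransGen.head h1 h2, h2⟩ ih

theorem rtg_mono {α : Type*} {r p : α → α → Prop} (h : ∀ i j, r i j → p i j) {x y : α}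
    (hh : ReflTransGen r x y) : ReflTransGen p x y := ReflTransGen.mono h x y hh

/-! ### Colourings -/

variable {V ι : Type*}

/-- The colour class. -/
noncomputable def cl (S : Finset V) (f : V → ι) (i : ι) : Finset V := S.filter (fun v => f v = i)

/-- The neighbours of `v` inside `T`. -/
noncomputable def nb (adj : V → V → Prop) (T : Finset V) (v : V) : Finset V :=
  T.filter (fun x => adj v x)

/-- Proper on `S`. -/
def Proper (adj : V → V → Prop) (S : Finset V) (f : V → ι) : Prop :=
  ∀ x ∈ S, ∀ y ∈ S, adj x y → f x ≠ f y

/-- Some vertex of colour `i` has no neighbour of colour `j`. -/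
def Mv (adj : V → V → Prop) (S : Finset V) (f : V → ι) (i j : ι) : Prop :=
  ∃ y ∈ S, f y = i ∧ ∀ x ∈ S, f x = j → ¬ adj y x

/-- The class sizes are as prescribed, up to a missing vertex at `a` and an extra one at `b`. -/
def Sz (S : Finset V) (n : ι → ℕ) (f : V → ι) (a b : ι) : Prop :=
  ∀ i, (cl S f i).card + (if i = a then 1 else 0) = n i + (if i = b then 1 else 0)

/-- Exact sizes. -/
def Ex (S : Finset V) (n : ι → ℕ) (f : V → ι) : Prop := ∀ i, (cl S f i).card = n i

theorem mem_cl {S : Finset V} {f : V → ι} {i : ι} {v : V} : v ∈ cl S f i ↔ v ∈ S ∧ f v = i := by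
  simp [cl]

theorem mem_nb {adj : V → V → Prop} {T : Finset V} {v x : V} :
    x ∈ nb adj T v ↔ x ∈ T ∧ adj v x := by
  simp [nb]

theorem cl_update (S : Finset V) (f : V → ι) (v : V) (hv : v ∈ S) (c : ι) (hc : c ≠ f v) (i : ι) :
    (cl S (Function.update f v c) i).card + (if i = f v then 1 else 0) =
      (cl S f i).card + (if i = c then 1 else 0) := by
  by_cases hic : i = c
  · subst hic
    rw [if_neg hc, if_pos rfl]
    have : cl S (Function.update f v i) i = insert v (cl S f i) := by
      ext x
      simp only [mem_cl, mem_insert]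
      by_cases hx : x = v
      · subst hx; simp [hv]
      · simp [hx]
    rw [this, card_insert_of_notMem]
    · simp only [mem_cl, not_and]
      intro _ h; exact hc h.symm
  · by_cases hif : i = f v
    · rw [if_pos hif, if_neg hic]
      have : cl S (Function.update f v c) i = (cl S f i).erase v := by
        ext x
        simp only [mem_cl, mem_erase]
        by_cases hx : x = v
        · subst hx; simp; intro _ h; exact hic h.symm
        · simp [hx]
      rw [this, card_erase_of_mem (mem_cl.2 ⟨hv, hif.symm⟩)]
      have : 0 < (cl S f i).card := card_pos.2 ⟨v, mem_cl.2 ⟨hv, hif.symm⟩⟩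
      omega
    · rw [if_neg hic, if_neg hif]
      have : cl S (Function.update f v c) i = cl S f i := by
        ext x
        simp only [mem_cl]
        by_cases hx : x = v
        · subst hx; simp; intro _
          exact ⟨fun h => absurd h.symm hic, fun h => absurd h.symm hif⟩
        · simp [Function.update_of_ne hx]
      rw [this]

theorem sz_update {S : Finset V} {n : ι → ℕ} {f : V → ι} {a b : ι} (h : Sz S n f a b) {v : V}
    (hv : v ∈ S) (hb : f v = b) (c : ι) : Sz S n (Function.update f v c) a c := by
  by_cases hc : c = f v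
  · rw [hc, Function.update_eq_self, hb]; exact h
  · intro i
    have h1 := cl_update S f v hv c hc i
    have h2 := h i
    rw [hb] at h1
    omega

theorem proper_update {adj : V → V → Prop} (hs : ∀ x y, adj x y → adj y x) {S : Finset V}
    {f : V → ι} (h : Proper adj S f) {v : V} (c : ι)
    (hc : ∀ x ∈ S, f x = c → ¬ adj v x) (hirr : ∀ x, ¬ adj x x) :
    Proper adj S (Function.update f v c) := by
  intro x hx y hy hxy
  by_cases h1 : x = v
  · subst h1
    have h2 : y ≠ x := fun h => hirr x (h ▸ hxy)
    rw [Function.update_self, Function.update_of_ne h2]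
    intro h3
    exact hc y hy h3.symm hxy
  · by_cases h2 : y = v
    · subst h2
      rw [Function.update_self, Function.update_of_ne h1]
      intro h3
      exact hc x hx h3 (hs _ _ hxy)
    · rw [Function.update_of_ne h1, Function.update_of_ne h2]
      exact h x hx y hy hxy

/-- **Shifting along a path.** -/
theorem shift {adj : V → V → Prop} (hs : ∀ x y, adj x y → adj y x) (hirr : ∀ x, ¬ adj x x)
    {S : Finset V} {n : ι → ℕ} {a : ι} : ∀ (k : ℕ) (T : Finset ι), T.card = k →
    ∀ (f : V → ι) (b : ι), Proper adj S f → Sz S n f a b →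
    ReflTransGen (fun i j => Mv adj S f i j ∧ i ∈ T ∧ j ∈ T) b a →
    ∃ g : V → ι, Proper adj S g ∧ Ex S n g := by
  intro k
  induction k with
  | zero =>
    intro T hT f b hp hz hpath
    rcases ReflTransGen.cases_head hpath with h | ⟨c, h, _⟩
    · subst h
      refine ⟨f, hp, fun i => ?_⟩
      have := hz i
      omega
    · rw [card_eq_zero] at hT
      rw [hT] at h
      exact absurd h.2.1 (by simp)
  | succ k ih =>
    intro T hT f b hp hz hpath
    by_cases hba : b = a
    · subst hba
      refine ⟨f, hp, fun i => ?_⟩
      have := hz i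
      omega
    rcases ReflTransGen.cases_head (path_avoid hpath) with h | ⟨c, h, h'⟩
    · exact absurd h hba
    obtain ⟨⟨⟨y, hy, hyb, hyc⟩, hbT, hcT⟩, hcb⟩ := h
    have h1 := path_avoid (path_src h' hcb)
    have hp' := proper_update hs hp c hyc hirr
    have hz' := sz_update hz hy hyb c
    refine ih (T.erase b) (by rw [card_erase_of_mem hbT, hT]; rfl) (Function.update f y c) c hp' hz' ?_
    refine rtg_mono ?_ h1
    rintro i j ⟨⟨⟨⟨w, hw, hwi, hwj⟩, hiT, hjT⟩, hib, hjb⟩, hjc⟩
    refine ⟨⟨w, hw, ?_, ?_⟩, mem_erase.2 ⟨hib, hiT⟩, mem_erase.2 ⟨hjb, hjT⟩⟩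
    · have : w ≠ y := by rintro rfl; exact hib (hwi.symm.trans hyb)
      rw [Function.update_of_ne this, hwi]
    · intro x hx hxj
      by_cases hxy : x = y
      · subst hxy
        rw [Function.update_self] at hxj
        exact absurd hxj.symm hjc
      · rw [Function.update_of_ne hxy] at hxj
        exact hwj x hx hxj

end Pool.Agent.Q44.HS
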