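import Pool.Agent.Q44.HS.Basic

namespace Pool.Agent.Q44.HS

open Relation Finset
open scoped Classical

/-- `X` reaches `a` without using `U`. -/
def RA {ι : Type*} (r : ι → ι → Prop) (a U X : ι) : Prop :=
  U ≠ a ∧ X ≠ U ∧ ReflTransGen (fun i j => r i j ∧ j ≠ U) X a

theorem ra_tail {ι : Type*} {r : ι → ι → Prop} {a U X W : ι} (h : RA r a U X) (hW : ¬ RA r a U W)
    (hUW : W ≠ U) (hXW : X ≠ W) (_hWa : W ≠ a) :
    ReflTransGen (fun i j => r i j ∧ j ≠ W) X a := by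
  obtain ⟨h1, h2, h3⟩ := h
  refine rtg_mono ?_ (path_in h3)
  rintro i j ⟨⟨hij, hjU⟩, _, hj⟩
  refine ⟨hij, ?_⟩
  rintro rfl
  exact hW ⟨h1, hUW, hj⟩

theorem exists_block {ι : Type*} {r : ι → ι → Prop} {a : ι} (P : Finset ι)
    (hP : ∀ i, i ∈ P ↔ ReflTransGen r i a) (h2 : 2 ≤ P.card) :
    ∃ (U : ι) (T : Finset ι), U ∈ P ∧ T ⊆ P ∧ T.Nonempty ∧ U ∉ T ∧ a ∉ T ∧
      (∀ W ∈ T, ∀ X ∈ P, X ≠ W → ReflTransGen (fun i j => r i j ∧ j ≠ W) X a) ∧
      (∀ W ∈ T, ∀ X ∈ P, X ∉ T → X ≠ U → ¬ r W X) := by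
  set TT : ι → Finset ι := fun U => P.filter (fun X => X ≠ U ∧ ¬ RA r a U X) with hTT
  have hmem : ∀ U X, X ∈ TT U ↔ X ∈ P ∧ X ≠ U ∧ ¬ RA r a U X := by
    intro U X; simp [hTT]
  have haP : a ∈ P := (hP a).2 ReflTransGen.refl
  have haT : ∀ U, a ∉ TT U := by
    intro U h
    rw [hmem] at h
    exact h.2.2 ⟨fun e => h.2.1 e.symm, h.2.1, ReflTransGen.refl⟩
  have hne : (TT a).Nonempty := by
    obtain ⟨X, hX, hXa⟩ := Finset.exists_mem_ne (by omega : 1 < P.card) a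
    exact ⟨X, (hmem _ _).2 ⟨hX, hXa, fun h => h.1 rfl⟩⟩
  obtain ⟨U, hU, hmin⟩ := Finset.exists_min_image (P.filter (fun U => (TT U).Nonempty))
    (fun U => (TT U).card) ⟨a, by simp [haP, hne]⟩
  rw [mem_filter] at hU
  have hterm : ∀ W ∈ TT U, ∀ X ∈ P, X ≠ W → ReflTransGen (fun i j => r i j ∧ j ≠ W) X a := by
    intro W hW X hX hXW
    have hW' := (hmem U W).1 hW
    have hWa : W ≠ a := by
      rintro rfl; exact haT U hW
    -- `TT W ⊆ (TT U).erase W`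
    have hsub : TT W ⊆ (TT U).erase W := by
      intro Y hY
      rw [hmem] at hY
      obtain ⟨hYP, hYW, hYR⟩ := hY
      rw [mem_erase]
      refine ⟨hYW, (hmem U Y).2 ⟨hYP, ?_, ?_⟩⟩
      · rintro rfl
        -- Y = U
        apply hYR
        refine ⟨hWa, hYW, ?_⟩
        by_cases hUa : Y = a
        · rw [hUa]
        rcases ReflTransGen.cases_head (path_avoid ((hP Y).1 hYP)) with h | ⟨c, hc, hca⟩
        · exact absurd h hUa
        have hRc : RA r a Y c := ⟨hUa, hc.2, hca⟩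
        have hcW : c ≠ W := by rintro rfl; exact hW'.2.2 hRc
        exact ReflTransGen.head ⟨hc.1, hcW⟩ (ra_tail hRc hW'.2.2 hW'.2.1 hcW hWa)
      · intro hR
        apply hYR
        exact ⟨hWa, hYW, ra_tail hR hW'.2.2 hW'.2.1 hYW hWa⟩
    have hcard : (TT W).card < (TT U).card := by
      calc (TT W).card ≤ ((TT U).erase W).card := card_le_card hsub
        _ < (TT U).card := card_erase_lt_of_mem hW
    have hemp : ¬ (TT W).Nonempty := by
      intro hne'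
      have := hmin W (by rw [mem_filter]; exact ⟨hW'.1, hne'⟩)
      omega
    have hX' : X ∉ TT W := fun h => hemp ⟨X, h⟩
    rw [hmem] at hX'
    push Not at hX'
    exact (hX' hX hXW).2.2
  refine ⟨U, TT U, hU.1, filter_subset _ _, hU.2, ?_, haT U, hterm, ?_⟩
  · intro h
    exact ((hmem U U).1 h).2.1 rfl
  · intro W hW X hX hXT hXU hr
    rw [hmem] at hXT
    push Not at hXT
    obtain ⟨h1, h2, h3⟩ := hXT hX hXU
    have hW' := (hmem U W).1 hW
    exact hW'.2.2 ⟨h1, hW'.2.1, ReflTransGen.head ⟨hr, hXU⟩ h3⟩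

end Pool.Agent.Q44.HS
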