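import Pool.Agent.Q44.HS.Block

namespace Pool.Agent.Q44.HS

open Relation Finset
open scoped Classical

variable {V ι : Type*}

theorem nb_mono {adj : V → V → Prop} {P Q : Finset V} (h : P ⊆ Q) (v : V) :
    (nb adj P v).card ≤ (nb adj Q v).card :=
  card_le_card (filter_subset_filter _ h)

/-- If `v` has a neighbour of each colour in `C`, then it has at least `|C|` neighbours with
colours in `C`. -/
theorem classes_le {adj : V → V → Prop} {S : Finset V} {f : V → ι} {v : V} {C : Finset ι}
    (h : ∀ i ∈ C, ∃ x ∈ S, f x = i ∧ adj v x) :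
    C.card ≤ (nb adj (S.filter (fun x => f x ∈ C)) v).card := by
  have : C ⊆ (nb adj (S.filter (fun x => f x ∈ C)) v).image f := by
    intro i hi
    obtain ⟨x, hx, hfx, hax⟩ := h i hi
    rw [mem_image]
    exact ⟨x, mem_nb.2 ⟨mem_filter.2 ⟨hx, hfx ▸ hi⟩, hax⟩, hfx⟩
  exact (card_le_card this).trans card_image_le

theorem nb_split (adj : V → V → Prop) (S : Finset V) (p : V → Prop) (v : V) :
    (nb adj (S.filter p) v).card + (nb adj (S.filter (fun x => ¬ p x)) v).card =
      (nb adj S v).card := by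
  have h1 : nb adj (S.filter p) v = (nb adj S v).filter p := by
    ext x; simp only [mem_nb, mem_filter]; tauto
  have h2 : nb adj (S.filter (fun x => ¬ p x)) v = (nb adj S v).filter (fun x => ¬ p x) := by
    ext x; simp only [mem_nb, mem_filter]; tauto
  rw [h1, h2]
  exact card_filter_add_card_filter_not _

theorem sum_nb_comm {adj : V → V → Prop} (hs : ∀ x y, adj x y → adj y x) (P Q : Finset V) :
    ∑ x ∈ P, (nb adj Q x).card = ∑ y ∈ Q, (nb adj P y).card := by
  have h := Finset.sum_card_bipartiteAbove_eq_sum_card_bipartiteBelow (s := P) (t := Q) adj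
  simp only [bipartiteAbove, bipartiteBelow] at h
  have e : ∀ y, nb adj P y = P.filter (fun a => adj a y) := by
    intro y; ext x; simp only [mem_nb, mem_filter]
    exact ⟨fun h => ⟨h.1, hs _ _ h.2⟩, fun h => ⟨h.1, hs _ _ h.2⟩⟩
  simp only [e]
  exact h

theorem card_classes {S : Finset V} {f : V → ι} (C : Finset ι) :
    (S.filter (fun x => f x ∈ C)).card = ∑ i ∈ C, (cl S f i).card := by
  rw [Finset.card_eq_sum_card_fiberwise (f := f) (t := C)]
  · refine sum_congr rfl fun i hi => ?_
    congr 1
    ext x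
    simp only [mem_filter, mem_cl]
    constructor
    · rintro ⟨⟨h1, _⟩, h2⟩; exact ⟨h1, h2⟩
    · rintro ⟨h1, h2⟩; exact ⟨⟨h1, h2 ▸ hi⟩, h2⟩
  · intro x hx
    simp only [coe_filter, Set.mem_ofPred_eq] at hx
    exact hx.2

theorem nb_classes {adj : V → V → Prop} {S : Finset V} {f : V → ι} (C : Finset ι) (v : V) :
    (nb adj (S.filter (fun x => f x ∈ C)) v).card = ∑ i ∈ C, (nb adj (cl S f i) v).card := by
  have h1 : nb adj (S.filter (fun x => f x ∈ C)) v = (nb adj S v).filter (fun x => f x ∈ C) := by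
    ext x; simp only [mem_nb, mem_filter]; tauto
  rw [h1, card_classes]
  refine sum_congr rfl fun i _ => ?_
  congr 1
  ext x
  simp only [mem_cl, mem_nb]; tauto

/-- Independent sets. -/
def Ind (adj : V → V → Prop) (I : Finset V) : Prop := ∀ x ∈ I, ∀ y ∈ I, ¬ adj x y

/-- A maximal independent subset of `B`. -/
theorem exists_indep {adj : V → V → Prop} (hs : ∀ x y, adj x y → adj y x)
    (hirr : ∀ x, ¬ adj x x) (B : Finset V) :
    ∃ I ⊆ B, (∀ x ∈ I, ∀ y ∈ I, ¬ adj x y) ∧ B.card ≤ ∑ x ∈ I, ((nb adj B x).card + 1) := by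
  obtain ⟨I, hI, hmax⟩ := Finset.exists_max_image
    (B.powerset.filter (fun I => Ind adj I)) Finset.card
    ⟨∅, mem_filter.2 ⟨empty_mem_powerset _, fun x hx => absurd hx (notMem_empty _)⟩⟩
  rw [mem_filter, mem_powerset] at hI
  refine ⟨I, hI.1, hI.2, ?_⟩
  have hcov : B ⊆ I.biUnion (fun x => insert x (nb adj B x)) := by
    intro y hy
    rw [mem_biUnion]
    by_contra hcon
    push Not at hcon
    have hyI : y ∉ I := fun h => hcon y h (mem_insert_self _ _)
    have hna : ∀ x ∈ I, ¬ adj x y := by
      intro x hx ha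
      exact hcon x hx (mem_insert_of_mem (mem_nb.2 ⟨hy, ha⟩))
    have hnew : insert y I ∈ B.powerset.filter (fun I => Ind adj I) := by
      rw [mem_filter, mem_powerset]
      refine ⟨insert_subset hy hI.1, ?_⟩
      intro u hu w hw
      rw [mem_insert] at hu hw
      rcases hu with rfl | hu <;> rcases hw with rfl | hw
      · exact hirr _
      · exact fun h => hna w hw (hs _ _ h)
      · exact hna u hu
      · exact hI.2 u hu w hw
    have := hmax _ hnew
    rw [card_insert_of_notMem hyI] at this
    omega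
  calc B.card ≤ (I.biUnion (fun x => insert x (nb adj B x))).card := card_le_card hcov
    _ ≤ ∑ x ∈ I, (insert x (nb adj B x)).card := card_biUnion_le
    _ ≤ ∑ x ∈ I, ((nb adj B x).card + 1) := sum_le_sum fun x _ => card_insert_le _ _

/-- The recolouring used in both cases of the proof. -/
theorem swap {adj : V → V → Prop} (hs : ∀ x y, adj x y → adj y x) (hirr : ∀ x, ¬ adj x x)
    {S : Finset V} {n : ι → ℕ} {f g : V → ι} {a b : ι} {C : Finset ι}
    (hp : Proper adj S f) (hz : Sz S n f a b) (haC : a ∈ C) (hbC : b ∉ C)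
    {y z : V} (hy : y ∈ S) (hyC : f y ∉ C) (hz' : z ∈ S) (hzC : f z ∈ C)
    (hyz : nb adj (cl S f (f z)) y = {z})
    (hg : Proper adj ((S.filter (fun x => f x ∉ C)).erase y) g)
    (hgs : Ex ((S.filter (fun x => f x ∉ C)).erase y) (fun i => if i ∈ C then 0 else n i) g)
    {P : ι} (hP : P ≠ f z)
    (hPz : ∀ x ∈ S, x ≠ z → x ≠ y →
      (if x ∈ (S.filter (fun x => f x ∉ C)).erase y then g x else f x) = P → ¬ adj z x) :
    ∃ h : V → ι, Proper adj S h ∧ Sz S n h a P ∧ h z = P ∧ h y = f z ∧
      (∀ x ∈ (S.filter (fun x => f x ∉ C)).erase y, h x = g x ∧ g x ∉ C) ∧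
      (∀ x ∈ S, f x ∈ C → x ≠ z → h x = f x) := by
  set B' := (S.filter (fun x => f x ∉ C)).erase y with hB'
  have hgC : ∀ x ∈ B', g x ∉ C := by
    intro x hx hgx
    have h1 := hgs (g x)
    simp only [hgx, if_true, card_eq_zero] at h1
    have : x ∈ cl B' g (g x) := mem_cl.2 ⟨hx, rfl⟩
    rw [h1] at this
    exact absurd this (notMem_empty _)
  set f0 : V → ι := fun x => if x ∈ B' then g x else f x with hf0
  have hmB : ∀ x, x ∈ B' ↔ x ≠ y ∧ x ∈ S ∧ f x ∉ C := by
    intro x; simp [hB', mem_erase, mem_filter]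
  have hyB : y ∉ B' := by rw [hmB]; tauto
  have hzB : z ∉ B' := by rw [hmB]; tauto
  have hzy : z ≠ y := by rintro rfl; exact hyC hzC
  have h0y : f0 y = f y := by simp [hf0, hyB]
  have h0z : f0 z = f z := by simp [hf0, hzB]
  -- sizes of f0
  have hz0 : Sz S n f0 a (f y) := by
    intro i
    by_cases hi : i ∈ C
    · have h1 : cl S f0 i = cl S f i := by
        ext x
        simp only [mem_cl, hf0]
        by_cases hx : x ∈ B'
        · rw [if_pos hx]
          constructor
          · rintro ⟨_, h⟩; exact absurd (h ▸ hi) (hgC x hx)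
          · rintro ⟨_, h⟩; exact absurd (h ▸ hi) ((hmB x).1 hx).2.2
        · rw [if_neg hx]
      have h2 : i ≠ b := by rintro rfl; exact hbC hi
      have h3 : i ≠ f y := by rintro rfl; exact hyC hi
      have := hz i
      rw [if_neg h2] at this
      rw [h1, if_neg h3]; exact this
    · have h1 : i ≠ a := by rintro rfl; exact hi haC
      rw [if_neg h1]
      have h2 := hgs i
      simp only [hi, if_false] at h2
      by_cases h3 : i = f y
      · rw [if_pos h3]
        have : cl S f0 i = insert y (cl B' g i) := by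
          ext x
          simp only [mem_cl, hf0, mem_insert]
          by_cases hx : x ∈ B'
          · rw [if_pos hx]
            have : x ≠ y := ((hmB x).1 hx).1
            have h4 : x ∈ S := ((hmB x).1 hx).2.1
            simp [this, h4, hx]
          · rw [if_neg hx]
            constructor
            · rintro ⟨h5, h6⟩
              left
              by_contra h7
              exact hx ((hmB x).2 ⟨h7, h5, h6 ▸ hi⟩)
            · rintro (rfl | h)
              · exact ⟨hy, h3.symm⟩
              · exact absurd h.1 hx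
        rw [this, card_insert_of_notMem (by rw [mem_cl]; tauto), h2]
      · rw [if_neg h3]
        have : cl S f0 i = cl B' g i := by
          ext x
          simp only [mem_cl, hf0]
          by_cases hx : x ∈ B'
          · rw [if_pos hx]
            have h4 : x ∈ S := ((hmB x).1 hx).2.1
            simp [h4, hx]
          · rw [if_neg hx]
            constructor
            · rintro ⟨h5, h6⟩
              exfalso
              by_cases h7 : x = y
              · subst h7; exact h3 h6.symm
              · exact hx ((hmB x).2 ⟨h7, h5, h6 ▸ hi⟩)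
            · rintro h
              exact absurd h.1 hx
        rw [this, h2]
  have hz1 := sz_update hz0 hy h0y (f z)
  have h1z : Function.update f0 y (f z) z = f z := by
    rw [Function.update_of_ne hzy, h0z]
  have hz2 := sz_update hz1 hz' h1z P
  set h := Function.update (Function.update f0 y (f z)) z P with hh
  have hhz : h z = P := by rw [hh, Function.update_self]
  have hhy : h y = f z := by
    rw [hh, Function.update_of_ne hzy.symm, Function.update_self]
  have hhx : ∀ x, x ≠ z → x ≠ y → h x = f0 x := by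
    intro x h1 h2
    rw [hh, Function.update_of_ne h1, Function.update_of_ne h2]
  have hhB : ∀ x ∈ B', h x = g x := by
    intro x hx
    rw [hhx x (by rintro rfl; exact hzB hx) (by rintro rfl; exact hyB hx)]
    simp [hf0, hx]
  have hhA : ∀ x ∈ S, f x ∈ C → x ≠ z → h x = f x := by
    intro x _ hxC hxz
    have h1 : x ≠ y := by rintro rfl; exact hyC hxC
    have h2 : x ∉ B' := by rw [hmB]; tauto
    rw [hhx x hxz h1]
    simp [hf0, h2]
  refine ⟨h, ?_, hz2, hhz, hhy, fun x hx => ⟨hhB x hx, hgC x hx⟩, hhA⟩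
  -- properness
  have main : ∀ x ∈ S, ∀ w ∈ S, adj x w → h x = h w →
      (x = z ∨ (x = y ∧ w ≠ z) ∨ (x ∈ B' ∧ w ≠ z ∧ w ≠ y) ∨
        (f x ∈ C ∧ x ≠ z ∧ f w ∈ C ∧ w ≠ z)) → False := by
    intro x hx w hw hxw he hcase
    have hxw' : x ≠ w := by rintro rfl; exact hirr _ hxw
    rcases hcase with rfl | ⟨rfl, hwz⟩ | ⟨hxB, hwz, hwy⟩ | ⟨hxC, hxz, hwC, hwz⟩
    · rw [hhz] at he
      by_cases hwy : w = y
      · subst hwy; rw [hhy] at he; exact hP he
      · rw [hhx w hxw'.symm hwy] at he
        exact hPz w hw hxw'.symm hwy he.symm hxw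
    · rw [hhy] at he
      by_cases hwB : w ∈ B'
      · rw [hhB w hwB] at he
        exact hgC w hwB (he ▸ hzC)
      · have hwC : f w ∈ C := by
          by_contra hc
          exact hwB ((hmB w).2 ⟨hxw'.symm, hw, hc⟩)
        rw [hhA w hw hwC hwz] at he
        have : w ∈ nb adj (cl S f (f z)) x := mem_nb.2 ⟨mem_cl.2 ⟨hw, he.symm⟩, hxw⟩
        rw [hyz, mem_singleton] at this
        exact hwz this
    · by_cases hwB : w ∈ B'
      · rw [hhB x hxB, hhB w hwB] at he
        exact hg x hxB w hwB hxw he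
      · have hwC : f w ∈ C := by
          by_contra hc
          exact hwB ((hmB w).2 ⟨hwy, hw, hc⟩)
        rw [hhB x hxB, hhA w hw hwC hwz] at he
        exact hgC x hxB (he ▸ hwC)
    · rw [hhA x hx hxC hxz, hhA w hw hwC hwz] at he
      exact hp x hx w hw hxw he
  intro x hx w hw hxw he
  by_cases h1 : x = z
  · exact main x hx w hw hxw he (Or.inl h1)
  by_cases h2 : w = z
  · exact main w hw x hx (hs _ _ hxw) he.symm (Or.inl h2)
  by_cases h3 : x = y
  · exact main x hx w hw hxw he (Or.inr (Or.inl ⟨h3, h2⟩))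
  by_cases h4 : w = y
  · exact main w hw x hx (hs _ _ hxw) he.symm (Or.inr (Or.inl ⟨h4, h1⟩))
  by_cases h5 : x ∈ B'
  · exact main x hx w hw hxw he (Or.inr (Or.inr (Or.inl ⟨h5, h2, h4⟩)))
  by_cases h6 : w ∈ B'
  · exact main w hw x hx (hs _ _ hxw) he.symm (Or.inr (Or.inr (Or.inl ⟨h6, h1, h3⟩)))
  have h7 : f x ∈ C := by
    by_contra hc; exact h5 ((hmB x).2 ⟨h3, hx, hc⟩)
  have h8 : f w ∈ C := by
    by_contra hc; exact h6 ((hmB w).2 ⟨h4, hw, hc⟩)
  exact main x hx w hw hxw he (Or.inr (Or.inr (Or.inr ⟨h7, h1, h8, h2⟩)))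

end Pool.Agent.Q44.HS
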