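import Pool.Agent.Q44.HS.Step

namespace Pool.Agent.Q44.HS

open Relation Finset
open scoped Classical

variable {V ι : Type*} [Fintype ι]

theorem exists_sizes [Nonempty ι] (S : Finset V) : ∀ n : ι → ℕ, ∑ i, n i = S.card →
    ∃ g : V → ι, Ex S n g := by
  induction S using Finset.induction_on with
  | empty =>
    intro n hn
    rw [card_empty, sum_eq_zero_iff] at hn
    refine ⟨fun _ => Classical.arbitrary ι, fun i => ?_⟩
    rw [hn i (mem_univ _)]
    simp [cl]
  | @insert v S hv ih =>
    intro n hn
    rw [card_insert_of_notMem hv] at hn
    obtain ⟨i0, hi0⟩ : ∃ i0, 0 < n i0 := by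
      by_contra hcon
      push Not at hcon
      have : ∑ i, n i = 0 := sum_eq_zero fun i _ => by have := hcon i; omega
      omega
    obtain ⟨g, hg⟩ := ih (Function.update n i0 (n i0 - 1)) (by
      have h1 := Finset.sum_update_of_mem (mem_univ i0) n (n i0 - 1)
      have h2 := Finset.add_sum_erase univ n (mem_univ i0)
      rw [sdiff_singleton_eq_erase] at h1
      rw [h1]
      omega)
    refine ⟨Function.update g v i0, fun i => ?_⟩
    have h0 : ∀ j, cl S (Function.update g v i0) j = cl S g j := by
      intro j
      ext x
      simp only [mem_cl]
      by_cases hx : x = v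
      · subst hx; simp [hv]
      · rw [Function.update_of_ne hx]
    by_cases hi : i = i0
    · subst hi
      have h1 : cl (insert v S) (Function.update g v i) i =
          insert v (cl S (Function.update g v i) i) := by
        ext x
        simp only [mem_cl, mem_insert]
        by_cases hx : x = v
        · subst hx; simp
        · simp [hx]
      rw [h1, card_insert_of_notMem (by rw [mem_cl]; tauto), h0, hg i, Function.update_self]
      omega
    · have h1 : cl (insert v S) (Function.update g v i0) i =
          cl S (Function.update g v i0) i := by
        ext x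
        simp only [mem_cl, mem_insert]
        by_cases hx : x = v
        · subst hx
          simp only [Function.update_self]
          constructor
          · rintro ⟨_, h⟩; exact absurd h.symm hi
          · rintro ⟨_, h⟩; exact absurd h.symm hi
        · simp [hx]
      rw [h1, h0, hg i, Function.update_of_ne hi]

theorem main [Nonempty ι] : ∀ (k : ℕ) (adj : V → V → Prop), (∀ x y, adj x y → adj y x) →
    (∀ x, ¬ adj x x) → ∀ S : Finset V, S.card = k → ∀ D : ℕ,
    (∀ v ∈ S, (nb adj S v).card ≤ D) → ∀ n : ι → ℕ, ∑ i, n i = S.card →
    (∀ i, n i * (D + 1) ≤ S.card) → ∃ g : V → ι, Proper adj S g ∧ Ex S n g := by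
  intro k
  induction k using Nat.strong_induction_on with
  | _ k IH =>
    intro adj hs hirr S hS D hdeg n hsum hn
    have act : ∀ T : Finset V, T ⊆ S → ∃ g : V → ι,
        Proper (fun x y => adj x y ∧ x ∈ T ∧ y ∈ T) S g ∧ Ex S n g := by
      intro T
      induction T using Finset.induction_on with
      | empty =>
        intro _
        obtain ⟨g, hg⟩ := exists_sizes S n hsum
        refine ⟨g, ?_, hg⟩
        intro x _ y _ h
        exact absurd h.2.1 (notMem_empty _)
      | @insert u T hu ihT =>
        intro hTS
        have huS : u ∈ S := hTS (mem_insert_self _ _)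
        obtain ⟨g, hg, hgs⟩ := ihT ((subset_insert _ _).trans hTS)
        set adj' : V → V → Prop := fun x y => adj x y ∧ x ∈ insert u T ∧ y ∈ insert u T with hadj'
        have hs' : ∀ x y, adj' x y → adj' y x := fun x y h => ⟨hs _ _ h.1, h.2.2, h.2.1⟩
        have hirr' : ∀ x, ¬ adj' x x := fun x h => hirr x h.1
        have hdeg' : ∀ v ∈ S, (nb adj' S v).card ≤ D := by
          intro v hv
          refine le_trans (card_le_card ?_) (hdeg v hv)
          intro x hx
          rw [mem_nb] at hx ⊢
          exact ⟨hx.1, hx.2.1⟩
        have hι : D + 1 ≤ Fintype.card ι := by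
          obtain ⟨M, hM⟩ : ∃ M, M = S.card / (D + 1) := ⟨_, rfl⟩
          have hM1 : M * (D + 1) ≤ S.card := by rw [hM]; exact Nat.div_mul_le_self _ _
          have hM2 : ∀ i, n i ≤ M := by
            intro i; rw [hM]; exact (Nat.le_div_iff_mul_le (Nat.succ_pos D)).2 (hn i)
          have hM0 : 1 ≤ M := by
            by_contra hlt
            have h1 : ∑ i, n i = 0 := sum_eq_zero fun i _ => by have := hM2 i; omega
            have h2 : 0 < S.card := card_pos.2 ⟨u, huS⟩
            omega
          have h1 : S.card ≤ Fintype.card ι * M := by
            rw [← hsum]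
            calc ∑ i, n i ≤ ∑ _i : ι, M := sum_le_sum fun i _ => hM2 i
              _ = Fintype.card ι * M := by rw [sum_const, smul_eq_mul, card_univ]
          have h2 : M * (D + 1) ≤ M * Fintype.card ι := by
            rw [mul_comm M (Fintype.card ι)]; exact hM1.trans h1
          exact Nat.le_of_mul_le_mul_left h2 hM0
        obtain ⟨c, _, hc⟩ : ∃ c ∈ (univ : Finset ι), c ∉ (nb adj' S u).image g := by
          apply exists_mem_notMem_of_card_lt_card
          have h1 : ((nb adj' S u).image g).card ≤ (nb adj' S u).card := card_image_le
          have h2 := hdeg' u huS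
          rw [card_univ]
          omega
        have hcn : ∀ x ∈ S, g x = c → ¬ adj' u x := by
          intro x hx hxc ha
          exact hc (mem_image.2 ⟨x, mem_nb.2 ⟨hx, ha⟩, hxc⟩)
        have hp : Proper adj' S (Function.update g u c) := by
          intro x hx y hy hxy
          have hne : x ≠ y := by rintro rfl; exact hirr' _ hxy
          by_cases h1 : x = u
          · subst h1
            rw [Function.update_self, Function.update_of_ne hne.symm]
            intro h3
            exact hcn y hy h3.symm hxy
          · by_cases h2 : y = u
            · subst h2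
              rw [Function.update_self, Function.update_of_ne h1]
              intro h3
              exact hcn x hx h3 (hs' _ _ hxy)
            · rw [Function.update_of_ne h1, Function.update_of_ne h2]
              refine hg x hx y hy ⟨hxy.1, ?_, ?_⟩
              · exact (mem_insert.1 hxy.2.1).resolve_left h1
              · exact (mem_insert.1 hxy.2.2).resolve_left h2
        have hz : Sz S n (Function.update g u c) (g u) c := by
          intro i
          by_cases hcu : c = g u
          · rw [hcu, Function.update_eq_self, hgs i]
          · rw [cl_update S g u huS c hcu i, hgs i]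
        refine inner hs' hirr' hdeg' hsum hn ?_ _ _ _ _ hp hz le_rfl
        intro S' hS' D' hd' n' hs'' hn'
        exact IH S'.card (by omega) adj' hs' hirr' S' rfl D' hd' n' hs'' hn'
    obtain ⟨g, hg, hgs⟩ := act S subset_rfl
    exact ⟨g, fun x hx y hy h => hg x hx y hy ⟨h, hx, hy⟩, hgs⟩

end Pool.Agent.Q44.HS
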