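import Pool.Agent.Q44.HS.Count

namespace Pool.Agent.Q44.HS

open Relation Finset
open scoped Classical

variable {V ι : Type*}

theorem ex_notin {B' : Finset V} {C : Finset ι} {n : ι → ℕ} {g : V → ι}
    (hgs : Ex B' (fun i => if i ∈ C then 0 else n i) g) {x : V} (hx : x ∈ B') : g x ∉ C := by
  intro hgx
  have h1 := hgs (g x)
  simp only [hgx, if_true, card_eq_zero] at h1
  have : x ∈ cl B' g (g x) := mem_cl.2 ⟨hx, rfl⟩
  rw [h1] at this
  exact absurd this (notMem_empty _)

variable [Fintype ι]

/-- The classes from which `a` is reachable. -/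
noncomputable def Acc (adj : V → V → Prop) (S : Finset V) (f : V → ι) (a : ι) : Finset ι :=
  univ.filter (fun i => ReflTransGen (Mv adj S f) i a)

theorem mem_acc {adj : V → V → Prop} {S : Finset V} {f : V → ι} {a i : ι} :
    i ∈ Acc adj S f a ↔ ReflTransGen (Mv adj S f) i a := by
  simp [Acc]

theorem inner {adj : V → V → Prop} (hs : ∀ x y, adj x y → adj y x) (hirr : ∀ x, ¬ adj x x)
    {S : Finset V} {D : ℕ} (hdeg : ∀ v ∈ S, (nb adj S v).card ≤ D) {n : ι → ℕ}
    (hsum : ∑ i, n i = S.card) (hn : ∀ i, n i * (D + 1) ≤ S.card)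
    (IH : ∀ S' : Finset V, S'.card < S.card → ∀ D', (∀ v ∈ S', (nb adj S' v).card ≤ D') →
      ∀ n' : ι → ℕ, ∑ i, n' i = S'.card → (∀ i, n' i * (D' + 1) ≤ S'.card) →
      ∃ g : V → ι, Proper adj S' g ∧ Ex S' n' g) :
    ∀ (N : ℕ) (f : V → ι) (a b : ι), Proper adj S f → Sz S n f a b →
      (univ \ Acc adj S f a).card ≤ N → ∃ g : V → ι, Proper adj S g ∧ Ex S n g := by
  intro N
  induction N with
  | zero =>
    intro f a b hp hz hN
    have hb : b ∈ Acc adj S f a := by
      by_contra h
      have h1 : b ∈ univ \ Acc adj S f a := mem_sdiff.2 ⟨mem_univ _, h⟩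
      have := card_pos.2 ⟨b, h1⟩
      omega
    exact shift hs hirr _ univ rfl f b hp hz
      (rtg_mono (fun i j h => ⟨h, mem_univ _, mem_univ _⟩) (mem_acc.1 hb))
  | succ N ihN =>
    intro f a b hp hz hN
    by_cases hb : b ∈ Acc adj S f a
    · exact shift hs hirr _ univ rfl f b hp hz
        (rtg_mono (fun i j h => ⟨h, mem_univ _, mem_univ _⟩) (mem_acc.1 hb))
    set C := Acc adj S f a with hC
    have haC : a ∈ C := mem_acc.2 ReflTransGen.refl
    have hba : b ≠ a := by rintro rfl; exact hb haC
    set A := S.filter (fun x => f x ∈ C) with hA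
    set B := S.filter (fun x => f x ∉ C) with hB
    have hmB : ∀ x, x ∈ B ↔ x ∈ S ∧ f x ∉ C := by intro x; simp [hB]
    have hBn : ∀ y ∈ B, ∀ i ∈ C, ∃ x ∈ S, f x = i ∧ adj y x := by
      intro y hy i hi
      by_contra hcon
      push Not at hcon
      obtain ⟨hyS, hyC⟩ := (hmB y).1 hy
      exact hyC (mem_acc.2 (ReflTransGen.head ⟨y, hyS, rfl, fun x hx hxi => hcon x hx hxi⟩
        (mem_acc.1 hi)))
    obtain ⟨M, hM⟩ : ∃ M, M = S.card / (D + 1) := ⟨_, rfl⟩
    have hM1 : M * (D + 1) ≤ S.card := by rw [hM]; exact Nat.div_mul_le_self _ _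
    have hM2 : ∀ i, n i ≤ M := by
      intro i; rw [hM]; exact (Nat.le_div_iff_mul_le (Nat.succ_pos D)).2 (hn i)
    obtain ⟨m, hm⟩ : ∃ m, m = C.card := ⟨_, rfl⟩
    have hsplit : ∀ v ∈ S, (nb adj A v).card + (nb adj B v).card ≤ D := by
      intro v hv
      have h1 : (nb adj A v).card + (nb adj B v).card = (nb adj S v).card := by
        convert nb_split adj S (fun x => f x ∈ C) v
      have h2 := hdeg v hv
      omega
    have hBd : ∀ y ∈ B, m + (nb adj B y).card ≤ D := by
      intro y hy
      have h1 : C.card ≤ (nb adj A y).card := classes_le (hBn y hy)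
      have h2 := hsplit y ((hmB y).1 hy).1
      rw [← hm] at h1
      omega
    obtain ⟨y0, hy0⟩ : ∃ y0, y0 ∈ B := by
      have := hz b
      rw [if_neg hba, if_pos rfl] at this
      have h1 : 0 < (cl S f b).card := by omega
      obtain ⟨y0, hy0⟩ := card_pos.1 h1
      rw [mem_cl] at hy0
      exact ⟨y0, (hmB _).2 ⟨hy0.1, hy0.2 ▸ hb⟩⟩
    obtain ⟨q, hq⟩ : ∃ q, D + 1 = m + q := ⟨D + 1 - m, by have := hBd y0 hy0; omega⟩
    have hq1 : 1 ≤ q := by have := hBd y0 hy0; omega
    have hAcard : A.card + 1 = ∑ i ∈ C, n i := by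
      rw [hA, card_classes]
      have h1 : ∑ i ∈ C, ((cl S f i).card + (if i = a then 1 else 0)) = ∑ i ∈ C, n i := by
        refine sum_congr rfl fun i hi => ?_
        have := hz i
        have h2 : i ≠ b := by rintro rfl; exact hb hi
        rw [if_neg h2] at this
        exact this
      rw [sum_add_distrib] at h1
      rw [← h1]
      congr 1
      rw [Finset.sum_ite_eq' C a (fun _ => 1), if_pos haC]
    have hAM : A.card + 1 ≤ m * M := by
      rw [hAcard, hm]
      calc ∑ i ∈ C, n i ≤ ∑ _i ∈ C, M := sum_le_sum fun i _ => hM2 i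
        _ = C.card * M := by rw [sum_const, smul_eq_mul]
    have hABS : A.card + B.card = S.card := by
      rw [hA, hB]; exact card_filter_add_card_filter_not _
    have hBM : q * M + 1 ≤ B.card := by
      rw [hq] at hM1
      have : M * (m + q) = m * M + q * M := by ring
      omega
    -- the recolouring of `B` minus a vertex
    have getg : ∀ y ∈ B, ∃ g : V → ι, Proper adj (B.erase y) g ∧
        Ex (B.erase y) (fun i => if i ∈ C then 0 else n i) g := by
      intro y hy
      have hcard : (B.erase y).card + 1 = B.card := card_erase_add_one hy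
      refine IH (B.erase y) (by omega) (q - 1) ?_ _ ?_ ?_
      · intro v hv
        have h1 := hBd v (mem_of_mem_erase hv)
        have h2 := nb_mono (adj := adj) (erase_subset y B) v
        omega
      · have h1 : ∑ i, n i = ∑ i, (if i ∈ C then n i else 0) + ∑ i, (if i ∈ C then 0 else n i) := by
          rw [← sum_add_distrib]
          refine sum_congr rfl fun i _ => ?_
          by_cases hi : i ∈ C <;> simp [hi]
        have h2 : ∑ i, (if i ∈ C then n i else 0) = ∑ i ∈ C, n i := by
          rw [← sum_filter]
          congr 1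
          ext i; simp
        rw [h2] at h1
        omega
      · intro i
        by_cases hi : i ∈ C
        · simp [hi]
        · simp only [hi, if_false]
          have h1 : n i * (q - 1 + 1) ≤ q * M := by
            have : q - 1 + 1 = q := by omega
            rw [this, mul_comm]
            exact Nat.mul_le_mul_left q (hM2 i)
          omega
    -- there are at least two accessible classes
    have hm2 : 2 ≤ m := by
      by_contra hlt
      have hm1 : 1 ≤ m := by rw [hm]; exact card_pos.2 ⟨a, haC⟩
      have hm1' : m = 1 := by omega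
      have h1 : B.card ≤ ∑ y ∈ B, (nb adj A y).card := by
        calc B.card = ∑ _y ∈ B, 1 := by simp
          _ ≤ ∑ y ∈ B, (nb adj A y).card := sum_le_sum fun y hy => by
            have := classes_le (adj := adj) (S := S) (f := f) (v := y) (C := C) (hBn y hy)
            rw [← hm, hm1'] at this
            exact this
      rw [sum_nb_comm hs B A] at h1
      have h2 : ∑ x ∈ A, (nb adj B x).card ≤ A.card * D := by
        calc ∑ x ∈ A, (nb adj B x).card ≤ ∑ _x ∈ A, D := sum_le_sum fun x hx => by
              have := hsplit x (mem_filter.1 hx).1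
              omega
          _ = A.card * D := by rw [sum_const, smul_eq_mul]
      rw [hm1'] at hAM hq
      have hqD : q = D := by omega
      rw [hqD] at hBM
      have h3 : (A.card + 1) * D ≤ M * D := Nat.mul_le_mul_right D (by omega)
      nlinarith
    obtain ⟨U, T, hUC, hTC, hTne, hUT, haT, hterm, hblock⟩ :=
      exists_block (r := Mv adj S f) (a := a) C (fun i => mem_acc) (by omega)
    obtain ⟨t, ht⟩ : ∃ t, t = T.card := ⟨_, rfl⟩
    have ht1 : 1 ≤ t := by rw [ht]; exact card_pos.2 hTne
    have hbT : ∀ W ∈ T, W ≠ b := by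
      rintro W hW rfl; exact hb (hTC hW)
    have haT' : ∀ W ∈ T, W ≠ a := by
      rintro W hW rfl; exact haT hW
    have hclT : ∀ W ∈ T, (cl S f W).card ≤ M := by
      intro W hW
      have := hz W
      rw [if_neg (haT' W hW), if_neg (hbT W hW)] at this
      have h2 := hM2 W
      omega
    have htm : t + 1 ≤ m := by
      have : (insert U T).card ≤ C.card := card_le_card (insert_subset hUC hTC)
      rw [card_insert_of_notMem hUT] at this
      omega
    -- degrees into `B` from the classes of `T`
    have hTd : ∀ x ∈ S, f x ∈ T → (nb adj B x).card ≤ q + t := by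
      intro x hx hxT
      have h1 := classes_le (adj := adj) (S := S) (f := f) (v := x) (C := C \ insert U T) (by
        intro i hi
        rw [mem_sdiff, mem_insert] at hi
        push Not at hi
        have h2 := hblock (f x) hxT i hi.1 hi.2.2 hi.2.1
        by_contra hcon
        push Not at hcon
        exact h2 ⟨x, hx, rfl, fun w hw hwi => hcon w hw hwi⟩)
      have h2 : (nb adj (S.filter (fun w => f w ∈ C \ insert U T)) x).card ≤ (nb adj A x).card := by
        apply nb_mono
        intro w hw
        rw [mem_filter] at hw ⊢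
        exact ⟨hw.1, (mem_sdiff.1 hw.2).1⟩
      have h3 : (C \ insert U T).card + (t + 1) = m := by
        rw [hm, ht, ← card_insert_of_notMem hUT]
        exact card_sdiff_add_card_eq_card (insert_subset hUC hTC)
      have h4 := hsplit x hx
      omega
    by_cases hcase : ∃ z ∈ S, f z ∈ T ∧ ∃ y ∈ B, nb adj (cl S f (f z)) y = {z} ∧
        ∃ X ∈ C, X ≠ f z ∧ ∀ x ∈ S, f x = X → ¬ adj z x
    · -- Case 1
      obtain ⟨z, hzS, hzT, y, hyB, hyz, X, hXC, hXW, hXz⟩ := hcase
      obtain ⟨g, hg, hgs⟩ := getg y hyB
      obtain ⟨hyS, hyC⟩ := (hmB y).1 hyB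
      obtain ⟨h, hhp, hhz, hz1, hy1, hB1, hA1⟩ := swap hs hirr hp hz haC hb hyS hyC hzS (hTC hzT)
        hyz hg hgs (P := X) hXW (by
          intro x hx _ _ he
          by_cases hxB : x ∈ B.erase y
          · rw [if_pos hxB] at he
            exact absurd (he ▸ hXC) (ex_notin hgs hxB)
          · rw [if_neg hxB] at he
            exact hXz x hx he)
      refine shift hs hirr _ univ rfl h X hhp hhz ?_
      have h1 := path_in (path_avoid (path_src (hterm (f z) hzT X hXC hXW) hXW))
      refine rtg_mono ?_ h1
      rintro i j ⟨⟨⟨hij, hiW, hjW⟩, hjX⟩, hia, hja⟩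
      refine ⟨?_, mem_univ _, mem_univ _⟩
      have hiC : i ∈ C := mem_acc.2 (rtg_mono (fun _ _ h => h.1.1) hia)
      have hjC : j ∈ C := mem_acc.2 (rtg_mono (fun _ _ h => h.1.1) hja)
      obtain ⟨w, hw, hwi, hwj⟩ := hij
      refine ⟨w, hw, ?_, ?_⟩
      · rw [hA1 w hw (hwi ▸ hiC) (by rintro rfl; exact hiW hwi.symm), hwi]
      · intro x hx hxj
        by_cases hxz : x = z
        · subst hxz; rw [hz1] at hxj; exact absurd hxj.symm hjX
        by_cases hxy : x = y
        · subst hxy; rw [hy1] at hxj; exact absurd hxj.symm hjW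
        by_cases hxC : f x ∈ C
        · rw [hA1 x hx hxC hxz] at hxj
          exact hwj x hx hxj
        · have hxB : x ∈ B.erase y := mem_erase.2 ⟨hxy, (hmB x).2 ⟨hx, hxC⟩⟩
          have h2 := hB1 x hxB
          rw [h2.1] at hxj
          exact absurd (hxj ▸ hjC) h2.2
    · -- Case 2
      push Not at hcase
      have hsolo : ∀ z ∈ S, f z ∈ T → ∀ y ∈ B, nb adj (cl S f (f z)) y = {z} →
          (nb adj B z).card ≤ q := by
        intro z hzS hzT y hyB hyz
        have h1 := classes_le (adj := adj) (S := S) (f := f) (v := z) (C := C.erase (f z)) (by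
          intro i hi
          rw [mem_erase] at hi
          exact hcase z hzS hzT y hyB hyz i hi.2 hi.1)
        have h2 : (nb adj (S.filter (fun w => f w ∈ C.erase (f z))) z).card ≤
            (nb adj A z).card := by
          apply nb_mono
          intro w hw
          rw [mem_filter] at hw ⊢
          exact ⟨hw.1, (mem_erase.1 hw.2).2⟩
        have h3 : (C.erase (f z)).card + 1 = m := by
          rw [hm]; exact card_erase_add_one (hTC hzT)
        have h4 := hsplit z hzS
        omega
      -- Lemma 3
      have htq : q + 1 ≤ t := by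
        obtain ⟨W, hW⟩ := hTne
        obtain ⟨Sol, hSol⟩ : ∃ Sol, Sol = (cl S f W).filter
          (fun z => ∃ y ∈ B, nb adj (cl S f W) y = {z}) := ⟨_, rfl⟩
        obtain ⟨Dw, hDw⟩ : ∃ Dw, Dw = (cl S f W).filter
          (fun z => ¬ ∃ y ∈ B, nb adj (cl S f W) y = {z}) := ⟨_, rfl⟩
        obtain ⟨Nn, hNn⟩ : ∃ Nn, Nn = B.filter (fun y => ∃ z ∈ Sol, adj z y) := ⟨_, rfl⟩
        obtain ⟨R, hR⟩ : ∃ R, R = B.filter (fun y => ¬ ∃ z ∈ Sol, adj z y) := ⟨_, rfl⟩
        have hSD : Sol.card + Dw.card = (cl S f W).card := by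
          rw [hSol, hDw]; exact card_filter_add_card_filter_not _
        have hNR : Nn.card + R.card = B.card := by
          rw [hNn, hR]; exact card_filter_add_card_filter_not _
        have hN1 : Nn.card ≤ Sol.card * q := by
          have h1 : Nn ⊆ Sol.biUnion (fun z => nb adj B z) := by
            intro y hy
            rw [hNn, mem_filter] at hy
            obtain ⟨z, hz1, hz2⟩ := hy.2
            exact mem_biUnion.2 ⟨z, hz1, mem_nb.2 ⟨hy.1, hz2⟩⟩
          calc Nn.card ≤ (Sol.biUnion (fun z => nb adj B z)).card := card_le_card h1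
            _ ≤ ∑ z ∈ Sol, (nb adj B z).card := card_biUnion_le
            _ ≤ ∑ _z ∈ Sol, q := sum_le_sum fun z hz1 => by
              rw [hSol, mem_filter, mem_cl] at hz1
              obtain ⟨⟨hzS, hzW⟩, y, hyB, hyz⟩ := hz1
              exact hsolo z hzS (hzW ▸ hW) y hyB (by rw [hzW]; exact hyz)
            _ = Sol.card * q := by rw [sum_const, smul_eq_mul]
        have hR1 : ∀ y ∈ R, 2 ≤ (nb adj Dw y).card := by
          intro y hy
          rw [hR, mem_filter] at hy
          obtain ⟨hyB, hyn⟩ := hy
          have h1 : nb adj Dw y = nb adj (cl S f W) y := by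
            ext x
            rw [mem_nb, mem_nb, hDw, mem_filter]
            constructor
            · rintro ⟨⟨h2, _⟩, h3⟩; exact ⟨h2, h3⟩
            · rintro ⟨h2, h3⟩
              refine ⟨⟨h2, ?_⟩, h3⟩
              intro h4
              exact hyn ⟨x, by rw [hSol, mem_filter]; exact ⟨h2, h4⟩, hs _ _ h3⟩
          rw [h1]
          obtain ⟨x, hxS, hxW, hxa⟩ := hBn y hyB W (hTC hW)
          have hx : x ∈ nb adj (cl S f W) y := mem_nb.2 ⟨mem_cl.2 ⟨hxS, hxW⟩, hxa⟩
          have h2 : 0 < (nb adj (cl S f W) y).card := card_pos.2 ⟨x, hx⟩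
          by_contra h3
          have h4 : (nb adj (cl S f W) y).card = 1 := by omega
          obtain ⟨z, hz1⟩ := card_eq_one.1 h4
          have hz2 : z ∈ nb adj (cl S f W) y := by rw [hz1]; exact mem_singleton_self _
          rw [mem_nb] at hz2
          exact hyn ⟨z, by rw [hSol, mem_filter]; exact ⟨hz2.1, y, hyB, hz1⟩, hs _ _ hz2.2⟩
        have hR2 : R.card * 2 ≤ Dw.card * (q + t) := by
          calc R.card * 2 = ∑ _y ∈ R, 2 := by rw [sum_const, smul_eq_mul]
            _ ≤ ∑ y ∈ R, (nb adj Dw y).card := sum_le_sum hR1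
            _ = ∑ x ∈ Dw, (nb adj R x).card := sum_nb_comm hs _ _
            _ ≤ ∑ _x ∈ Dw, (q + t) := sum_le_sum fun x hx => by
              have h1 : (nb adj R x).card ≤ (nb adj B x).card :=
                nb_mono (by rw [hR]; exact filter_subset _ _) x
              rw [hDw, mem_filter, mem_cl] at hx
              have h2 := hTd x hx.1.1 (hx.1.2 ▸ hW)
              omega
            _ = Dw.card * (q + t) := by rw [sum_const, smul_eq_mul]
        by_contra hlt
        have htq' : t ≤ q := by omega
        have h1 : Dw.card * (q + t) ≤ Dw.card * (2 * q) := Nat.mul_le_mul_left _ (by omega)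
        have h2 := hclT W hW
        have h3 : (cl S f W).card * q ≤ M * q := Nat.mul_le_mul_right q h2
        rw [← hSD] at h3
        nlinarith
      -- many special neighbours
      obtain ⟨s, hs'⟩ : ∃ s, t = q + s := ⟨t - q, by omega⟩
      have hs1 : 1 ≤ s := by omega
      obtain ⟨A', hA'⟩ : ∃ A', A' = S.filter (fun x => f x ∈ T) := ⟨_, rfl⟩
      have hSp : ∀ y ∈ B, s + 1 + (nb adj B y).card ≤
          (A'.filter (fun z => nb adj (cl S f (f z)) y = {z})).card := by
        intro y hyB
        have h1 := nb_classes (adj := adj) (S := S) (f := f) C y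
        have hpos : ∀ i ∈ C, 1 ≤ (nb adj (cl S f i) y).card := by
          intro i hi
          obtain ⟨x, hxS, hxi, hxa⟩ := hBn y hyB i hi
          exact card_pos.2 ⟨x, mem_nb.2 ⟨mem_cl.2 ⟨hxS, hxi⟩, hxa⟩⟩
        have h2 : m + (T.filter (fun i => ¬ (nb adj (cl S f i) y).card = 1)).card ≤
            ∑ i ∈ C, (nb adj (cl S f i) y).card := by
          have e1 : m = ∑ _i ∈ C, 1 := by rw [hm]; simp
          have e2 : (T.filter (fun i => ¬ (nb adj (cl S f i) y).card = 1)).card ≤
              ∑ i ∈ C, (if ¬ (nb adj (cl S f i) y).card = 1 then 1 else 0) := by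
            rw [← card_filter]
            exact card_le_card (filter_subset_filter _ hTC)
          calc m + (T.filter (fun i => ¬ (nb adj (cl S f i) y).card = 1)).card
              ≤ ∑ _i ∈ C, 1 + ∑ i ∈ C, (if ¬ (nb adj (cl S f i) y).card = 1 then 1 else 0) := by
                omega
            _ = ∑ i ∈ C, (1 + (if ¬ (nb adj (cl S f i) y).card = 1 then 1 else 0)) := by
                rw [sum_add_distrib]
            _ ≤ ∑ i ∈ C, (nb adj (cl S f i) y).card := by
                refine sum_le_sum fun i hi => ?_
                have := hpos i hi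
                split_ifs <;> omega
        have h3 : (T.filter (fun i => (nb adj (cl S f i) y).card = 1)).card ≤
            (A'.filter (fun z => nb adj (cl S f (f z)) y = {z})).card := by
          have : T.filter (fun i => (nb adj (cl S f i) y).card = 1) ⊆
              (A'.filter (fun z => nb adj (cl S f (f z)) y = {z})).image f := by
            intro i hi
            rw [mem_filter] at hi
            obtain ⟨z, hz1⟩ := card_eq_one.1 hi.2
            have hz2 : z ∈ nb adj (cl S f i) y := by rw [hz1]; exact mem_singleton_self _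
            rw [mem_nb, mem_cl] at hz2
            rw [mem_image]
            refine ⟨z, ?_, hz2.1.2⟩
            rw [mem_filter, hA', mem_filter, hz2.1.2]
            exact ⟨⟨hz2.1.1, hi.1⟩, hz1⟩
          exact (card_le_card this).trans card_image_le
        have h4 : (T.filter (fun i => (nb adj (cl S f i) y).card = 1)).card +
            (T.filter (fun i => ¬ (nb adj (cl S f i) y).card = 1)).card = t := by
          rw [ht]; exact card_filter_add_card_filter_not _
        have h5 := hsplit y ((hmB y).1 hyB).1
        rw [← hA] at h1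
        omega
      obtain ⟨I, hIB, hInd, hIc⟩ := exists_indep hs hirr B
      have hIq : B.card ≤ I.card * q := by
        calc B.card ≤ ∑ x ∈ I, ((nb adj B x).card + 1) := hIc
          _ ≤ ∑ _x ∈ I, q := sum_le_sum fun x hx => by
            have := hBd x (hIB hx)
            omega
          _ = I.card * q := by rw [sum_const, smul_eq_mul]
      have hIM : M + 1 ≤ I.card := by
        by_contra hlt
        have h1 : I.card * q ≤ M * q := Nat.mul_le_mul_right q (by omega)
        have h2 : M * q = q * M := mul_comm _ _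
        omega
      have hA'M : A'.card ≤ t * M := by
        rw [hA', card_classes, ht]
        calc ∑ i ∈ T, (cl S f i).card ≤ ∑ _i ∈ T, M := sum_le_sum fun i hi => hclT i hi
          _ = T.card * M := by rw [sum_const, smul_eq_mul]
      have hbig : A'.card < ∑ y ∈ I, (A'.filter (fun z => nb adj (cl S f (f z)) y = {z})).card := by
        have h1 : I.card * s + ∑ y ∈ I, ((nb adj B y).card + 1) ≤
            ∑ y ∈ I, (A'.filter (fun z => nb adj (cl S f (f z)) y = {z})).card := by
          calc I.card * s + ∑ y ∈ I, ((nb adj B y).card + 1)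
              = ∑ _y ∈ I, s + ∑ y ∈ I, ((nb adj B y).card + 1) := by
                rw [sum_const, smul_eq_mul]
            _ = ∑ y ∈ I, (s + ((nb adj B y).card + 1)) := sum_add_distrib.symm
            _ ≤ _ := sum_le_sum fun y hy => by
                have := hSp y (hIB hy)
                omega
        have h2 : (M + 1) * s ≤ I.card * s := Nat.mul_le_mul_right s hIM
        rw [hs'] at hA'M
        nlinarith
      have hdc : ∑ y ∈ I, (A'.filter (fun z => nb adj (cl S f (f z)) y = {z})).card =
          ∑ z ∈ A', (I.filter (fun y => nb adj (cl S f (f z)) y = {z})).card := by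
        have := Finset.sum_card_bipartiteAbove_eq_sum_card_bipartiteBelow (s := I) (t := A')
          (fun y z => nb adj (cl S f (f z)) y = {z})
        simpa only [bipartiteAbove, bipartiteBelow] using this
      obtain ⟨z, hzA', hz2⟩ : ∃ z ∈ A', 1 < (I.filter (fun y => nb adj (cl S f (f z)) y = {z})).card := by
        by_contra hcon
        push Not at hcon
        have : ∑ z ∈ A', (I.filter (fun y => nb adj (cl S f (f z)) y = {z})).card ≤ ∑ _z ∈ A', 1 :=
          sum_le_sum hcon
        rw [sum_const, smul_eq_mul, mul_one] at this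
        omega
      obtain ⟨y1, hy1, y2, hy2, hy12⟩ := one_lt_card.1 hz2
      rw [mem_filter] at hy1 hy2
      rw [hA', mem_filter] at hzA'
      obtain ⟨hzS, hzT⟩ := hzA'
      obtain ⟨hy1I, hy1z⟩ := hy1
      obtain ⟨hy2I, hy2z⟩ := hy2
      have hy1B := hIB hy1I
      have hy2B := hIB hy2I
      obtain ⟨g, hg, hgs⟩ := getg y1 hy1B
      obtain ⟨hy1S, hy1C⟩ := (hmB y1).1 hy1B
      have hzC : f z ∈ C := hTC hzT
      -- number of colours
      have hι : D + 1 ≤ Fintype.card ι := by
        have hM0 : 1 ≤ M := by
          have h1 : 0 < (cl S f (f z)).card := card_pos.2 ⟨z, mem_cl.2 ⟨hzS, rfl⟩⟩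
          have h2 := hclT _ hzT
          omega
        have h1 : S.card ≤ Fintype.card ι * M := by
          rw [← hsum]
          calc ∑ i, n i ≤ ∑ _i : ι, M := sum_le_sum fun i _ => hM2 i
            _ = Fintype.card ι * M := by rw [sum_const, smul_eq_mul, card_univ]
        have h2 : M * (D + 1) ≤ M * Fintype.card ι := by
          rw [mul_comm M (Fintype.card ι)]; exact hM1.trans h1
        exact Nat.le_of_mul_le_mul_left h2 hM0
      have hzd : (nb adj (B.erase y1) z).card + 1 ≤ q := by
        have h1 := hsolo z hzS hzT y1 hy1B hy1z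
        have h2 : nb adj (B.erase y1) z = (nb adj B z).erase y1 := by
          ext x; simp only [mem_nb, mem_erase]; tauto
        have h3 : y1 ∈ nb adj B z := by
          have : z ∈ nb adj (cl S f (f z)) y1 := by rw [hy1z]; exact mem_singleton_self _
          exact mem_nb.2 ⟨hy1B, hs _ _ (mem_nb.1 this).2⟩
        rw [h2, card_erase_add_one h3]
        exact h1
      obtain ⟨Y, hY, hYn⟩ : ∃ Y ∈ univ \ C, Y ∉ (nb adj (B.erase y1) z).image g := by
        apply exists_mem_notMem_of_card_lt_card
        have h1 : ((nb adj (B.erase y1) z).image g).card ≤ (nb adj (B.erase y1) z).card :=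
          card_image_le
        have h2 : (univ \ C).card + C.card = Fintype.card ι := by
          rw [card_sdiff_add_card_eq_card (subset_univ C), card_univ]
        omega
      rw [mem_sdiff] at hY
      have hYC := hY.2
      have hYW : Y ≠ f z := by rintro rfl; exact hYC hzC
      obtain ⟨h, hhp, hhz, hz1', hy1', hB1, hA1⟩ := swap hs hirr hp hz haC hb hy1S hy1C hzS hzC
        hy1z hg hgs (P := Y) hYW (by
          intro x hx _ hxy he ha
          by_cases hxB : x ∈ B.erase y1
          · rw [if_pos hxB] at he
            exact hYn (mem_image.2 ⟨x, mem_nb.2 ⟨hxB, ha⟩, he⟩)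
          · rw [if_neg hxB] at he
            exact hxB (mem_erase.2 ⟨hxy, (hmB x).2 ⟨hx, he ▸ hYC⟩⟩))
      -- classes of `h` inside `C`
      have hcls : ∀ x ∈ S, h x ∈ C → h x ≠ f z → f x = h x := by
        intro x hx hxC hxW
        by_cases hxz : x = z
        · subst hxz; rw [hz1'] at hxC; exact absurd hxC hYC
        by_cases hxy : x = y1
        · subst hxy; exact absurd hy1' hxW
        by_cases hxC' : f x ∈ C
        · exact (hA1 x hx hxC' hxz).symm
        · have hxB : x ∈ B.erase y1 := mem_erase.2 ⟨hxy, (hmB x).2 ⟨hx, hxC'⟩⟩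
          have h2 := hB1 x hxB
          rw [h2.1] at hxC
          exact absurd hxC h2.2
      have hacc1 : ∀ X ∈ C, X ≠ f z → X ∈ Acc adj S h a := by
        intro X hX hXW
        rw [mem_acc]
        have h1 := path_in (path_src (hterm (f z) hzT X hX hXW) hXW)
        refine rtg_mono ?_ h1
        rintro i j ⟨⟨hij, hiW, hjW⟩, hia, hja⟩
        have hiC : i ∈ C := mem_acc.2 (rtg_mono (fun _ _ h => h.1) hia)
        have hjC : j ∈ C := mem_acc.2 (rtg_mono (fun _ _ h => h.1) hja)
        obtain ⟨w, hw, hwi, hwj⟩ := hij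
        refine ⟨w, hw, ?_, ?_⟩
        · rw [hA1 w hw (hwi ▸ hiC) (by rintro rfl; exact hiW hwi.symm), hwi]
        · intro x hx hxj
          refine hwj x hx ?_
          rw [hcls x hx (hxj ▸ hjC) (hxj ▸ hjW), hxj]
      have haccW : f z ∈ Acc adj S h a := by
        have hWa : f z ≠ a := haT' _ hzT
        rcases ReflTransGen.cases_head (path_avoid (mem_acc.1 hzC)) with h1 | ⟨c, hc, hca⟩
        · exact absurd h1 hWa
        have hcC : c ∈ C := mem_acc.2 (rtg_mono (fun _ _ h => h.1) hca)
        have h2 := hacc1 c hcC hc.2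
        rw [mem_acc] at h2 ⊢
        refine ReflTransGen.head ?_ h2
        obtain ⟨w, hw, hwi, hwj⟩ := hc.1
        have hwz : w ≠ z := by
          rintro rfl
          obtain ⟨x, hx, hxc, hxa⟩ := hcase w hzS hzT y1 hy1B hy1z c hcC hc.2
          exact hwj x hx hxc hxa
        refine ⟨w, hw, ?_, ?_⟩
        · rw [hA1 w hw (hwi ▸ hzC) hwz, hwi]
        · intro x hx hxj
          refine hwj x hx ?_
          rw [hcls x hx (hxj ▸ hcC) (hxj ▸ hc.2), hxj]
      have hy2B' : y2 ∈ B.erase y1 := mem_erase.2 ⟨hy12.symm, hy2B⟩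
      have hy2S := ((hmB y2).1 hy2B).1
      have hacc2 : h y2 ∈ Acc adj S h a := by
        rw [mem_acc] at haccW ⊢
        refine ReflTransGen.head ?_ haccW
        refine ⟨y2, hy2S, rfl, ?_⟩
        intro x hx hxW hxa
        by_cases hxz : x = z
        · subst hxz; rw [hz1'] at hxW; exact hYW hxW
        by_cases hxy : x = y1
        · subst hxy; exact hInd y2 hy2I x hy1I hxa
        by_cases hxC' : f x ∈ C
        · rw [hA1 x hx hxC' hxz] at hxW
          have : x ∈ nb adj (cl S f (f z)) y2 := mem_nb.2 ⟨mem_cl.2 ⟨hx, hxW⟩, hxa⟩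
          rw [hy2z, mem_singleton] at this
          exact hxz this
        · have hxB : x ∈ B.erase y1 := mem_erase.2 ⟨hxy, (hmB x).2 ⟨hx, hxC'⟩⟩
          have h2 := hB1 x hxB
          rw [h2.1] at hxW
          exact absurd (hxW ▸ hzC) h2.2
      refine ihN h a Y hhp hhz ?_
      have hsub : univ \ Acc adj S h a ⊆ (univ \ C).erase (h y2) := by
        intro X hX
        rw [mem_sdiff] at hX
        rw [mem_erase, mem_sdiff]
        refine ⟨?_, mem_univ _, ?_⟩
        · rintro rfl; exact hX.2 hacc2
        · intro hXC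
          by_cases hXW : X = f z
          · subst hXW; exact hX.2 haccW
          · exact hX.2 (hacc1 X hXC hXW)
      have hmem : h y2 ∈ univ \ C := by
        rw [mem_sdiff]
        refine ⟨mem_univ _, ?_⟩
        rw [(hB1 y2 hy2B').1]
        exact (hB1 y2 hy2B').2
      have h1 := card_le_card hsub
      have h2 := card_erase_add_one hmem
      omega

end Pool.Agent.Q44.HS
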